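import Mathlib

set_option autoImplicit false

namespace Pool.Agent.Helper34.ED

variable {V : Type*}

/-- Moves of the distance game: when the Explorer names `l` at `u`, the Director may move to any
vertex at distance exactly `l` from `u`. -/
def distMove (G : SimpleGraph V) (u : V) (l : ℕ) (x : V) : Prop :=
  1 ≤ l ∧ G.dist u x = l

/-- Moves of the path variant: when the Explorer names `l` at `u`, the Director may move to any
vertex `x` such that `G` contains a path of length `l` from `u` to `x`. -/
def pathMove (G : SimpleGraph V) (u : V) (l : ℕ) (x : V) : Prop :=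
  1 ≤ l ∧ ∃ p : G.Walk u x, p.IsPath ∧ p.length = l

/-- `Forces mv k U u`: with `U` the set of vertices visited so far and the token at `u`, the
Explorer has a strategy which guarantees that at least `k` vertices get visited. Either `k`
vertices are already visited, or the Explorer can name some `l` for which a move exists and from
every possible answer `x` of the Director the Explorer can still force `k` visited vertices. -/
inductive Forces [DecidableEq V] (mv : V → ℕ → V → Prop) (k : ℕ) : Finset V → V → Prop
  | done (U : Finset V) (u : V) : k ≤ U.card → Forces mv k U u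
  | step (U : Finset V) (u : V) (l : ℕ) : (∃ x, mv u l x) →
      (∀ x, mv u l x → Forces mv k (insert x U) x) → Forces mv k U u

/-- Value of the game started at `v`: the largest number of visited vertices that the Explorer
can force. -/
noncomputable def value [DecidableEq V] (mv : V → ℕ → V → Prop) (v : V) : ℕ :=
  sSup {k : ℕ | Forces mv k {v} v}

/-- The value `f_d(G, v)` of the distance game. -/
noncomputable def fd [DecidableEq V] (G : SimpleGraph V) (v : V) : ℕ := value (distMove G) v

/-- The value `f_p(G, v)` of the path variant. -/
noncomputable def fp [DecidableEq V] (G : SimpleGraph V) (v : V) : ℕ := value (pathMove G) v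

section general

variable [DecidableEq V]

lemma Forces.le_card [Fintype V] {mv : V → ℕ → V → Prop} {k : ℕ} {U : Finset V} {u : V}
    (h : Forces mv k U u) : k ≤ Fintype.card V := by
  induction h with
  | done U u h => exact h.trans (Finset.card_le_univ U)
  | step U u l hex _ ih => obtain ⟨x, hx⟩ := hex; exact ih x hx

lemma le_value [Fintype V] {mv : V → ℕ → V → Prop} {k : ℕ} {v : V}
    (h : Forces mv k {v} v) : k ≤ value mv v :=
  le_csSup ⟨Fintype.card V, fun _ hk => hk.le_card⟩ h

/-- The Director can stay inside a closed set. -/
lemma Forces.le_of_closed {mv : V → ℕ → V → Prop} {k : ℕ} {U : Finset V} {u : V}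
    (h : Forces mv k U u) (S : Finset V)
    (hS : ∀ a ∈ S, ∀ l, (∃ x, mv a l x) → ∃ x ∈ S, mv a l x) (hU : U ⊆ S) (hu : u ∈ S) :
    k ≤ S.card := by
  induction h with
  | done U u h => exact h.trans (Finset.card_le_card hU)
  | step U u l hex _ ih =>
    obtain ⟨x, hxS, hx⟩ := hS u hu l hex
    exact ih x hx (Finset.insert_subset hxS hU) hxS

lemma value_le_of_closed {mv : V → ℕ → V → Prop} {v : V} (S : Finset V)
    (hS : ∀ a ∈ S, ∀ l, (∃ x, mv a l x) → ∃ x ∈ S, mv a l x) (hv : v ∈ S) :
    value mv v ≤ S.card := by
  apply csSup_le
  · exact ⟨0, Forces.done _ _ (Nat.zero_le _)⟩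
  · intro k hk
    exact hk.le_of_closed S hS (by simpa using hv) hv

lemma one_le_value [Fintype V] {mv : V → ℕ → V → Prop} {v : V} : 1 ≤ value mv v :=
  le_value (Forces.done _ _ (by simp))

/-- A forced chain of pairwise disjoint sets gives a lower bound for the value. -/
lemma forces_chain {mv : V → ℕ → V → Prop} (r : ℕ) (C : ℕ → V → Prop)
    (hdisj : ∀ i j x, C i x → C j x → i = j)
    (hmove : ∀ i, i < r → ∀ u, C i u → ∃ l, (∃ x, mv u l x) ∧ ∀ x, mv u l x → C (i + 1) x) :
    ∀ d i, i + d = r → ∀ (U : Finset V) (u : V), C i u → u ∈ U →
      (∀ j, j ≤ i → ∃ x ∈ U, C j x) → Forces mv (r + 1) U u := by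
  intro d
  induction d with
  | zero =>
    intro i hi U u hu huU hall
    apply Forces.done
    have hne : Nonempty V := ⟨u⟩
    choose! g hg using hall
    have hinj : Set.InjOn g (Finset.range (r + 1) : Set ℕ) := by
      intro a ha b hb hab
      simp only [Finset.coe_range, Set.mem_Iio] at ha hb
      have h1 := (hg a (by omega)).2
      have h2 := (hg b (by omega)).2
      rw [hab] at h1
      exact hdisj _ _ _ h1 h2
    have hmaps : Set.MapsTo g (Finset.range (r + 1) : Set ℕ) (U : Set V) := by
      intro a ha
      simp only [Finset.coe_range, Set.mem_Iio] at ha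
      exact (hg a (by omega)).1
    have := Finset.card_le_card_of_injOn g hmaps hinj
    simpa using this
  | succ d ih =>
    intro i hi U u hu huU hall
    obtain ⟨l, hex, hl⟩ := hmove i (by omega) u hu
    refine Forces.step U u l hex (fun x hx => ?_)
    refine ih (i + 1) (by omega) (insert x U) x (hl x hx) (Finset.mem_insert_self _ _) ?_
    intro j hj
    rcases Nat.lt_or_ge j (i + 1) with h | h
    · obtain ⟨y, hy, hy'⟩ := hall j (by omega)
      exact ⟨y, Finset.mem_insert_of_mem hy, hy'⟩
    · have : j = i + 1 := by omega
      subst this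
      exact ⟨x, Finset.mem_insert_self _ _, hl x hx⟩

end general

end Pool.Agent.Helper34.ED
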