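import Mathlib
import Pool.Agent.Helper34.ED.Defs

set_option autoImplicit false

namespace Pool.Agent.Helper34.ED

open Finset

/-- Classes of vertices. -/
inductive Cls (m : ℕ)
  | z : Cls m
  | w (i : ZMod m) : Cls m
  | A (i : ZMod m) : Cls m
  | B (i : ZMod m) : Cls m
  deriving DecidableEq

def Cls.equiv (m : ℕ) : Cls m ≃ Option (ZMod m ⊕ ZMod m ⊕ ZMod m) where
  toFun
    | .z => none
    | .w i => some (.inl i)
    | .A i => some (.inr (.inl i))
    | .B i => some (.inr (.inr i))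
  invFun
    | none => .z
    | some (.inl i) => .w i
    | some (.inr (.inl i)) => .A i
    | some (.inr (.inr i)) => .B i
  left_inv c := by cases c <;> rfl
  right_inv c := by rcases c with _ | (_ | (_ | _)) <;> rfl

instance (m : ℕ) [NeZero m] : Fintype (Cls m) := Fintype.ofEquiv _ (Cls.equiv m).symm

/-- Sizes of the classes. -/
def sz {m : ℕ} : Cls m → ℕ
  | .z => 1
  | .w _ => 1
  | .A i => 2 * (m - i.val)
  | .B _ => 2 * m + 2

/-- Vertices. -/
abbrev Vt (m : ℕ) := Σ c : Cls m, Fin (sz c)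

/-- Adjacency of distinct classes, oriented away from the class `w i`. -/
def Rel {m : ℕ} (c d : Cls m) : Prop :=
  ∃ i, c = .w i ∧ (d = .z ∨ d = .A i ∨ d = .A (i - 1) ∨ d = .B i)

/-- The graph. -/
def Gr (m : ℕ) : SimpleGraph (Vt m) where
  Adj x y := x ≠ y ∧ (x.1 = y.1 ∨ Rel x.1 y.1 ∨ Rel y.1 x.1)
  symm := ⟨by
    rintro x y ⟨h1, h2⟩
    refine ⟨h1.symm, ?_⟩
    rcases h2 with h | h | h
    · exact Or.inl h.symm
    · exact Or.inr (Or.inr h)
    · exact Or.inr (Or.inl h)⟩
  loopless := ⟨fun x h => h.1 rfl⟩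

lemma sz_pos {m : ℕ} [NeZero m] (c : Cls m) : 0 < sz c := by
  cases c with
  | z => simp [sz]
  | w i => simp [sz]
  | A i => simp only [sz]; have := ZMod.val_lt i; omega
  | B i => simp [sz]

/-- A vertex in a given class. -/
def vx {m : ℕ} [NeZero m] (c : Cls m) : Vt m := ⟨c, ⟨0, sz_pos c⟩⟩

lemma eq_vx_z {m : ℕ} [NeZero m] (x : Vt m) (h : x.1 = .z) : x = vx .z := by
  obtain ⟨c, k⟩ := x
  simp only at h
  subst h
  have : k = ⟨0, sz_pos _⟩ := by
    apply Fin.ext
    have := k.2
    simp only [sz] at this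
    change k.val = 0
    omega
  rw [this]; rfl

lemma eq_vx_w {m : ℕ} [NeZero m] (x : Vt m) (i : ZMod m) (h : x.1 = .w i) : x = vx (.w i) := by
  obtain ⟨c, k⟩ := x
  simp only at h
  subst h
  have : k = ⟨0, sz_pos _⟩ := by
    apply Fin.ext
    have := k.2
    simp only [sz] at this
    change k.val = 0
    omega
  rw [this]; rfl

lemma adj_B {m : ℕ} {x y : Vt m} {j : ZMod m} (hx : x.1 = .B j) (h : (Gr m).Adj x y) :
    y.1 = .B j ∨ y.1 = .w j := by
  obtain ⟨_, h | ⟨i, h1, h2⟩ | ⟨i, h1, h2⟩⟩ := h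
  · left; rw [← h, hx]
  · rw [hx] at h1; cases h1
  · right
    rw [hx] at h2
    rcases h2 with h2 | h2 | h2 | h2 <;> cases h2
    exact h1

lemma adj_A {m : ℕ} {x y : Vt m} {j : ZMod m} (hx : x.1 = .A j) (h : (Gr m).Adj x y) :
    y.1 = .A j ∨ y.1 = .w j ∨ y.1 = .w (j + 1) := by
  obtain ⟨_, h | ⟨i, h1, h2⟩ | ⟨i, h1, h2⟩⟩ := h
  · left; rw [← h, hx]
  · rw [hx] at h1; cases h1
  · right
    rw [hx] at h2
    rcases h2 with h2 | h2 | h2 | h2
    · cases h2
    · left; injection h2 with h2; rw [h1, h2]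
    · right; injection h2 with h2; rw [h1, h2]; congr 1; ring
    · cases h2

lemma adj_of_rel {m : ℕ} {x y : Vt m} (h : Rel x.1 y.1) : (Gr m).Adj x y := by
  refine ⟨?_, Or.inr (Or.inl h)⟩
  rintro rfl
  obtain ⟨i, h1, h2⟩ := h
  rw [h1] at h2
  rcases h2 with h2 | h2 | h2 | h2 <;> cases h2

lemma adj_of_class {m : ℕ} {x y : Vt m} (h : x.1 = y.1) (hne : x ≠ y) : (Gr m).Adj x y :=
  ⟨hne, Or.inl h⟩

/-! ### Crossing arguments -/

lemma exists_cross {P : ℕ → Prop} {a b : ℕ} (hab : a ≤ b) (ha : ¬ P a) (hb : P b) :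
    ∃ k, a ≤ k ∧ k < b ∧ ¬ P k ∧ P (k + 1) := by
  classical
  induction b, hab using Nat.le_induction with
  | base => exact absurd hb ha
  | succ b hab ih =>
    by_cases h : P b
    · obtain ⟨k, h1, h2, h3, h4⟩ := ih h
      exact ⟨k, h1, by omega, h3, h4⟩
    · exact ⟨b, hab, by omega, h, hb⟩

lemma inj_getVert {V : Type*} {G : SimpleGraph V} {u v : V} {p : G.Walk u v} (hp : p.IsPath)
    {a b : ℕ} (ha : a ≤ p.length) (hb : b ≤ p.length) (h : p.getVert a = p.getVert b) : a = b :=
  hp.getVert_injOn (by simpa using ha) (by simpa using hb) h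

/-- A path that visits `B j` without starting there must end there. -/
lemma end_in_B {m : ℕ} [NeZero m] {u v : Vt m} {p : (Gr m).Walk u v} (hp : p.IsPath)
    {j : ZMod m} (hu : u.1 ≠ .B j) {y : Vt m} (hy : y ∈ p.support) (hyB : y.1 = .B j) :
    v.1 = .B j := by
  by_contra hv
  obtain ⟨t, ht, htl⟩ := SimpleGraph.Walk.mem_support_iff_exists_getVert.1 hy
  obtain ⟨k, _, hk2, hk3, hk4⟩ := exists_cross (P := fun n => (p.getVert n).1 = .B j)
    (Nat.zero_le t) (by simpa using hu) (by simpa [ht] using hyB)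
  obtain ⟨k', hk1', hk2', hk3', hk4'⟩ := exists_cross (P := fun n => ¬ (p.getVert n).1 = .B j)
    htl (by simpa [ht] using hyB) (by simpa using hv)
  have h1 := p.adj_getVert_succ (show k < p.length by omega)
  have h2 := p.adj_getVert_succ (show k' < p.length by omega)
  have hk3'' : (p.getVert k').1 = .B j := by simpa using hk3'
  have e1 : p.getVert k = vx (.w j) := by
    apply eq_vx_w
    exact (adj_B hk4 h1.symm).resolve_left hk3
  have e2 : p.getVert (k' + 1) = vx (.w j) := by
    apply eq_vx_w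
    exact (adj_B hk3'' h2).resolve_left hk4'
  have := inj_getVert hp (by omega) (by omega) (e1.trans e2.symm)
  omega

/-- A path that starts and ends outside `A c` and visits `A c` uses both doors of `A c`. -/
lemma doors {m : ℕ} [NeZero m] {u v : Vt m} {p : (Gr m).Walk u v} (hp : p.IsPath)
    {c : ZMod m} (hu : u.1 ≠ .A c) (hv : v.1 ≠ .A c) {y : Vt m} (hy : y ∈ p.support)
    (hyA : y.1 = .A c) :
    ∃ k k', k < k' ∧ k' < p.length ∧ (p.getVert (k + 1)).1 = .A c ∧ (p.getVert k').1 = .A c ∧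
      ((p.getVert k = vx (.w c) ∧ p.getVert (k' + 1) = vx (.w (c + 1))) ∨
       (p.getVert k = vx (.w (c + 1)) ∧ p.getVert (k' + 1) = vx (.w c))) := by
  obtain ⟨t, ht, htl⟩ := SimpleGraph.Walk.mem_support_iff_exists_getVert.1 hy
  obtain ⟨k, _, hk2, hk3, hk4⟩ := exists_cross (P := fun n => (p.getVert n).1 = .A c)
    (Nat.zero_le t) (by simpa using hu) (by simpa [ht] using hyA)
  obtain ⟨k', hk1', hk2', hk3', hk4'⟩ := exists_cross (P := fun n => ¬ (p.getVert n).1 = .A c)
    htl (by simpa [ht] using hyA) (by simpa using hv)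
  have h1 := p.adj_getVert_succ (show k < p.length by omega)
  have h2 := p.adj_getVert_succ (show k' < p.length by omega)
  have hk3'' : (p.getVert k').1 = .A c := by simpa using hk3'
  have e1 : p.getVert k = vx (.w c) ∨ p.getVert k = vx (.w (c + 1)) := by
    rcases (adj_A hk4 h1.symm).resolve_left hk3 with h | h
    · exact Or.inl (eq_vx_w _ _ h)
    · exact Or.inr (eq_vx_w _ _ h)
  have e2 : p.getVert (k' + 1) = vx (.w c) ∨ p.getVert (k' + 1) = vx (.w (c + 1)) := by
    rcases (adj_A hk3'' h2).resolve_left hk4' with h | h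
    · exact Or.inl (eq_vx_w _ _ h)
    · exact Or.inr (eq_vx_w _ _ h)
  refine ⟨k, k', by omega, hk2', hk4, hk3'', ?_⟩
  have hne : p.getVert k ≠ p.getVert (k' + 1) := by
    intro h
    have := inj_getVert hp (by omega) (by omega) h
    omega
  rcases e1 with e1 | e1 <;> rcases e2 with e2 | e2
  · exact absurd (e1.trans e2.symm) hne
  · exact Or.inl ⟨e1, e2⟩
  · exact Or.inr ⟨e1, e2⟩
  · exact absurd (e1.trans e2.symm) hne

lemma vx_w_inj {m : ℕ} [NeZero m] {i j : ZMod m} (h : vx (.w i) = (vx (.w j) : Vt m)) : i = j := by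
  have := congrArg Sigma.fst h
  simp only [vx] at this
  injection this

/-- A path from `B i` to `B j` (with `j ≠ i`) misses `A i` or `A (i - 1)`. -/
lemma miss_A {m : ℕ} [NeZero m] (hm : 2 ≤ m) {u v : Vt m} {p : (Gr m).Walk u v} (hp : p.IsPath)
    {i j : ZMod m} (hu : u.1 = .B i) (hv : v.1 = .B j) (hij : j ≠ i) :
    (∀ y ∈ p.support, y.1 ≠ .A i) ∨ (∀ y ∈ p.support, y.1 ≠ .A (i - 1)) := by
  by_contra hcon
  push Not at hcon
  obtain ⟨⟨y, hy, hyA⟩, ⟨y', hy', hyA'⟩⟩ := hcon
  have h1ne : (i : ZMod m) + 1 ≠ i := by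
    intro h
    have h0 : (1 : ZMod m) = 0 := by
      have := congrArg (fun t => t - i) h
      simpa using this
    have : Fact (1 < m) := ⟨by omega⟩
    exact one_ne_zero h0
  have hneA : i ≠ i - 1 := by
    intro h
    apply h1ne
    have := congrArg (fun t => t + 1) h
    simpa using this
  -- leaving B i
  obtain ⟨s, _, hs2, hs3, hs4⟩ := exists_cross (P := fun n => ¬ (p.getVert n).1 = .B i)
    (Nat.zero_le p.length) (by simpa using hu)
    (by
      simp only [SimpleGraph.Walk.getVert_length, hv]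
      intro h; injection h with h; exact hij h)
  have hs3' : (p.getVert s).1 = .B i := by simpa using hs3
  have hsw : p.getVert (s + 1) = vx (.w i) :=
    eq_vx_w _ _ ((adj_B hs3' (p.adj_getVert_succ hs2)).resolve_left hs4)
  -- every visit to a class having `w i` as a door is right after `w i`
  have key : ∀ c : ZMod m, (c = i ∨ c + 1 = i) → (∃ y ∈ p.support, y.1 = .A c) →
      (p.getVert (s + 2)).1 = .A c := by
    rintro c hc ⟨y, hy, hyc⟩
    obtain ⟨k, k', hkk, hk', hkA, hkA', hd⟩ := doors hp (c := c) (by rw [hu]; simp)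
      (by rw [hv]; simp) hy hyc
    have hmem : p.getVert k = vx (.w i) ∨ p.getVert (k' + 1) = vx (.w i) := by
      rcases hc with rfl | hc
      · rcases hd with hd | hd
        · exact Or.inl hd.1
        · exact Or.inr hd.2
      · rcases hd with hd | hd
        · exact Or.inr (by rw [← hc]; exact hd.2)
        · exact Or.inl (by rw [← hc]; exact hd.1)
    rcases hmem with h | h
    · have : k = s + 1 := inj_getVert hp (by omega) (by omega) (h.trans hsw.symm)
      rw [this] at hkA
      exact hkA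
    · exfalso
      have : k' + 1 = s + 1 := inj_getVert hp (by omega) (by omega) (h.trans hsw.symm)
      have hks : k' = s := by omega
      rw [hks, hs3'] at hkA'
      cases hkA'
  have k1 := key i (Or.inl rfl) ⟨y, hy, hyA⟩
  have k2 := key (i - 1) (Or.inr (by ring)) ⟨y', hy', hyA'⟩
  rw [k1] at k2
  injection k2 with k2
  exact hneA k2

end Pool.Agent.Helper34.ED
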