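import Mathlib
import Pool.Agent.Helper34.ED.Graph

set_option autoImplicit false

namespace Pool.Agent.Helper34.ED

open Finset

/-! ### Counting -/

instance instDecEqVt (m : ℕ) : DecidableEq (Vt m) := inferInstance

lemma card_classes {m : ℕ} [NeZero m] (N : Finset (Cls m)) :
    (univ.filter (fun y : Vt m => y.1 ∈ N)).card = ∑ c ∈ N, sz c := by
  have : univ.filter (fun y : Vt m => y.1 ∈ N) = N.sigma (fun c => (univ : Finset (Fin (sz c)))) := by
    ext y
    simp
  rw [this, Finset.card_sigma]
  simp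

lemma count_le {m : ℕ} [NeZero m] {u v : Vt m} {p : (Gr m).Walk u v} (hp : p.IsPath)
    (N : Finset (Cls m)) (hN : ∀ y ∈ p.support, y.1 ∉ N) :
    p.length + 1 + ∑ c ∈ N, sz c ≤ Fintype.card (Vt m) := by
  classical
  have h1 : p.support.toFinset.card = p.length + 1 := by
    rw [List.toFinset_card_of_nodup hp.support_nodup, SimpleGraph.Walk.length_support]
  have hdis : Disjoint p.support.toFinset (univ.filter (fun y : Vt m => y.1 ∈ N)) := by
    rw [Finset.disjoint_left]
    intro y hy hy'
    exact hN y (by simpa using hy) (by simpa using hy')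
  have := Finset.card_union_of_disjoint hdis
  rw [h1, card_classes] at this
  rw [← this]
  exact Finset.card_le_univ _

lemma count_eq {m : ℕ} [NeZero m] {u v : Vt m} {p : (Gr m).Walk u v} (hp : p.IsPath)
    (N : Finset (Cls m)) (hN : ∀ y, y ∈ p.support ↔ y.1 ∉ N) :
    p.length + 1 + ∑ c ∈ N, sz c = Fintype.card (Vt m) := by
  classical
  have h1 : p.support.toFinset.card = p.length + 1 := by
    rw [List.toFinset_card_of_nodup hp.support_nodup, SimpleGraph.Walk.length_support]
  have h2 : (univ.filter (fun y : Vt m => y.1 ∈ N)) = (p.support.toFinset)ᶜ := by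
    ext y
    simp only [mem_filter, mem_univ, true_and, mem_compl, List.mem_toFinset]
    rw [hN y]
    simp
  rw [← card_classes, h2, ← h1]
  exact Finset.card_add_card_compl _

/-! ### Explicit paths -/

lemma extend_one {V : Type*} {G : SimpleGraph V} {u a x : V} {p : G.Walk u a}
    (hp : p.IsPath) (hadj : G.Adj a x) (hx : x ∉ p.support) :
    ∃ q : G.Walk u x, q.IsPath ∧ ∀ y, y ∈ q.support ↔ y ∈ p.support ∨ y = x := by
  refine ⟨p.concat hadj, hp.concat hx hadj, fun y => ?_⟩
  rw [SimpleGraph.Walk.support_concat]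
  simp

lemma extend_clique {V : Type*} [DecidableEq V] {G : SimpleGraph V} {u a : V} {p : G.Walk u a}
    (hp : p.IsPath) (S : Finset V) (hS : S.Nonempty) (hadj : ∀ x ∈ S, G.Adj a x)
    (hcl : ∀ x ∈ S, ∀ y ∈ S, x ≠ y → G.Adj x y) (hdis : ∀ x ∈ S, x ∉ p.support) :
    ∃ b ∈ S, ∃ q : G.Walk u b, q.IsPath ∧ ∀ y, y ∈ q.support ↔ y ∈ p.support ∨ y ∈ S := by
  induction S using Finset.induction_on with
  | empty => exact absurd hS (by simp)
  | insert x S hx ih =>
    rcases S.eq_empty_or_nonempty with h | h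
    · subst h
      obtain ⟨q, hq, hq'⟩ := extend_one hp (hadj x (by simp)) (hdis x (by simp))
      exact ⟨x, by simp, q, hq, fun y => by rw [hq']; simp⟩
    · obtain ⟨b, hb, q, hq, hq'⟩ := ih h (fun y hy => hadj y (mem_insert_of_mem hy))
        (fun y hy y' hy' => hcl y (mem_insert_of_mem hy) y' (mem_insert_of_mem hy'))
        (fun y hy => hdis y (mem_insert_of_mem hy))
      have hbx : b ≠ x := fun h => hx (h ▸ hb)
      obtain ⟨q', hq1, hq2⟩ := extend_one hq
        (hcl b (mem_insert_of_mem hb) x (mem_insert_self _ _) hbx)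
        (by
          rw [hq']
          rintro (h | h)
          · exact hdis x (mem_insert_self _ _) h
          · exact hx h)
      refine ⟨x, mem_insert_self _ _, q', hq1, fun y => ?_⟩
      rw [hq2, hq', mem_insert]
      tauto

/-- The vertices of a class. -/
def cls {m : ℕ} [NeZero m] (c : Cls m) : Finset (Vt m) := univ.filter (fun y => y.1 = c)

lemma mem_cls {m : ℕ} [NeZero m] {c : Cls m} {y : Vt m} : y ∈ cls c ↔ y.1 = c := by
  simp [cls]

lemma vx_mem_cls {m : ℕ} [NeZero m] (c : Cls m) : vx c ∈ cls c := by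
  rw [mem_cls]; rfl

/-- Append a whole class to a path. -/
lemma extend_class {m : ℕ} [NeZero m] {u a : Vt m} {p : (Gr m).Walk u a}
    (hp : p.IsPath) (c : Cls m) (hadj : ∀ x : Vt m, x.1 = c → (Gr m).Adj a x)
    (hdis : ∀ x ∈ p.support, x.1 ≠ c) :
    ∃ b : Vt m, b.1 = c ∧ ∃ q : (Gr m).Walk u b, q.IsPath ∧
      ∀ y, y ∈ q.support ↔ y ∈ p.support ∨ y.1 = c := by
  obtain ⟨b, hb, q, hq, hq'⟩ := extend_clique hp (cls c) ⟨vx c, vx_mem_cls c⟩
    (fun x hx => hadj x (mem_cls.1 hx))
    (fun x hx y hy hxy => adj_of_class ((mem_cls.1 hx).trans (mem_cls.1 hy).symm) hxy)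
    (fun x hx hx' => hdis x hx' (mem_cls.1 hx))
  exact ⟨b, mem_cls.1 hb, q, hq, fun y => by rw [hq', mem_cls]⟩

/-- Traverse the class of the starting vertex. -/
lemma start_class {m : ℕ} [NeZero m] (u : Vt m) (h2 : 2 ≤ sz u.1) :
    ∃ b : Vt m, b.1 = u.1 ∧ ∃ q : (Gr m).Walk u b, q.IsPath ∧
      ∀ y, y ∈ q.support ↔ y.1 = u.1 := by
  have hne : ((cls u.1).erase u).Nonempty := by
    rw [← Finset.card_pos, Finset.card_erase_of_mem (mem_cls.2 rfl)]
    have : (cls u.1).card = sz u.1 := by
      have := card_classes (m := m) {u.1}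
      simpa [cls] using this
    omega
  obtain ⟨b, hb, q, hq, hq'⟩ := extend_clique (p := (SimpleGraph.Walk.nil : (Gr m).Walk u u))
    (by simp) ((cls u.1).erase u) hne
    (fun x hx => by
      rw [mem_erase, mem_cls] at hx
      exact adj_of_class hx.2.symm (fun h => hx.1 h.symm))
    (fun x hx y hy hxy => by
      rw [mem_erase, mem_cls] at hx hy
      exact adj_of_class (hx.2.trans hy.2.symm) hxy)
    (fun x hx => by
      rw [mem_erase] at hx
      simpa using hx.1)
  refine ⟨b, ?_, q, hq, fun y => ?_⟩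
  · rw [mem_erase, mem_cls] at hb
    exact hb.2
  · rw [hq', mem_erase, mem_cls]
    simp only [SimpleGraph.Walk.support_nil, List.mem_singleton]
    constructor
    · rintro (rfl | h)
      · rfl
      · exact h.2
    · intro h
      by_cases hyu : y = u
      · exact Or.inl hyu
      · exact Or.inr ⟨hyu, h⟩

lemma natCast_inj_of_lt {m : ℕ} [NeZero m] {a b : ℕ} (ha : a < m) (hb : b < m)
    (h : (a : ZMod m) = b) : a = b := by
  have := congrArg ZMod.val h
  rwa [ZMod.val_natCast_of_lt ha, ZMod.val_natCast_of_lt hb] at this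

/-- The spiral path around the cycle. -/
lemma spiral {m : ℕ} [NeZero m] {u : Vt m} {i : ZMod m} (hu : u.1 = .B i) :
    ∀ t : ℕ, t < m → ∃ q : (Gr m).Walk u (vx (.w (i - t))), q.IsPath ∧
      ∀ y, y ∈ q.support ↔ y.1 = .B i ∨ (∃ s : ℕ, s ≤ t ∧ y.1 = .w (i - s)) ∨
        (∃ s : ℕ, 1 ≤ s ∧ s ≤ t ∧ y.1 = .A (i - s)) := by
  intro t
  induction t with
  | zero =>
    intro _
    obtain ⟨b, hb, q, hq, hq'⟩ := start_class u (by rw [hu]; simp [sz])
    rw [hu] at hb
    obtain ⟨q', h1, h2⟩ := extend_one (x := vx (.w i)) hq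
      (by
        apply SimpleGraph.Adj.symm
        apply adj_of_rel
        exact ⟨i, rfl, Or.inr (Or.inr (Or.inr hb))⟩)
      (by
        rw [hq', hu]
        simp [vx])
    have e : (i - ((0 : ℕ) : ZMod m)) = i := by simp
    rw [e]
    refine ⟨q', h1, fun y => ?_⟩
    rw [h2, hq', hu]
    constructor
    · rintro (h | h)
      · exact Or.inl h
      · right; left
        exact ⟨0, le_refl _, by rw [h]; simp [vx]⟩
    · rintro (h | ⟨s, hs, h⟩ | ⟨s, hs, hs', h⟩)
      · exact Or.inl h
      · right
        have : s = 0 := by omega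
        subst this
        apply eq_vx_w
        simpa using h
      · omega
  | succ t ih =>
    intro ht
    obtain ⟨q, hq, hq'⟩ := ih (by omega)
    obtain ⟨b, hb, r, hr, hr'⟩ := extend_class hq (.A (i - ((t + 1 : ℕ) : ZMod m)))
      (by
        intro x hx
        apply adj_of_rel
        refine ⟨i - t, rfl, Or.inr (Or.inr (Or.inl ?_))⟩
        rw [hx]
        congr 1
        push_cast
        ring)
      (by
        intro x hx hxA
        rw [hq'] at hx
        rcases hx with h | ⟨s, hs, h⟩ | ⟨s, hs, hs', h⟩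
        · rw [hxA] at h; cases h
        · rw [hxA] at h; cases h
        · rw [hxA] at h
          injection h with h
          have : ((t + 1 : ℕ) : ZMod m) = (s : ZMod m) := sub_right_injective h
          have := natCast_inj_of_lt (by omega) (by omega) this
          omega)
    obtain ⟨q', h1, h2⟩ := extend_one (x := vx (.w (i - ((t + 1 : ℕ) : ZMod m)))) hr
      (by
        apply SimpleGraph.Adj.symm
        apply adj_of_rel
        exact ⟨_, rfl, Or.inr (Or.inl hb)⟩)
      (by
        rw [hr', hq']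
        rintro ((h | ⟨s, hs, h⟩ | ⟨s, hs, hs', h⟩) | h)
        · simp [vx] at h
        · simp only [vx] at h
          injection h with h
          have : ((t + 1 : ℕ) : ZMod m) = (s : ZMod m) := sub_right_injective h
          have := natCast_inj_of_lt (by omega) (by omega) this
          omega
        · simp [vx] at h
        · simp [vx] at h)
    refine ⟨q', h1, fun y => ?_⟩
    rw [h2, hr', hq']
    constructor
    · rintro (((h | ⟨s, hs, h⟩ | ⟨s, hs, hs', h⟩) | h) | h)
      · exact Or.inl h
      · exact Or.inr (Or.inl ⟨s, by omega, h⟩)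
      · exact Or.inr (Or.inr ⟨s, hs, by omega, h⟩)
      · exact Or.inr (Or.inr ⟨t + 1, by omega, le_refl _, h⟩)
      · exact Or.inr (Or.inl ⟨t + 1, le_refl _, by rw [h]; rfl⟩)
    · rintro (h | ⟨s, hs, h⟩ | ⟨s, hs, hs', h⟩)
      · exact Or.inl (Or.inl (Or.inl h))
      · rcases Nat.lt_or_ge s (t + 1) with h' | h'
        · exact Or.inl (Or.inl (Or.inr (Or.inl ⟨s, by omega, h⟩)))
        · have : s = t + 1 := by omega
          subst this
          exact Or.inr (eq_vx_w _ _ h)
      · rcases Nat.lt_or_ge s (t + 1) with h' | h'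
        · exact Or.inl (Or.inl (Or.inr (Or.inr ⟨s, hs, by omega, h⟩)))
        · have : s = t + 1 := by omega
          subst this
          exact Or.inl (Or.inr h)

/-- The classes missed by the long path from `B i` to `B (i + 1)`. -/
def N0 {m : ℕ} [NeZero m] (i : ZMod m) : Finset (Cls m) :=
  univ.filter (fun c => c = .z ∨ c = .A i ∨ ∃ j, j ≠ i ∧ j ≠ i + 1 ∧ c = .B j)

lemma long_path {m : ℕ} [NeZero m] (hm : 2 ≤ m) {u : Vt m} {i : ZMod m} (hu : u.1 = .B i) :
    ∃ b : Vt m, b.1 = .B (i + 1) ∧ ∃ q : (Gr m).Walk u b, q.IsPath ∧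
      ∀ y, y ∈ q.support ↔ y.1 ∉ N0 i := by
  obtain ⟨q, hq, hq'⟩ := spiral hu (m - 1) (by omega)
  have hcast : i - ((m - 1 : ℕ) : ZMod m) = i + 1 := by
    have : ((m - 1 : ℕ) : ZMod m) = -1 := by
      have h := congrArg (fun n : ℕ => (n : ZMod m)) (show m - 1 + 1 = m by omega)
      simp only [Nat.cast_add, Nat.cast_one, CharP.cast_eq_zero] at h
      exact eq_neg_of_add_eq_zero_left h
    rw [this]; ring
  have h1ne : (i : ZMod m) + 1 ≠ i := by
    intro h
    have h0 : (1 : ZMod m) = 0 := by
      have := congrArg (fun t => t - i) h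
      simpa using this
    have : Fact (1 < m) := ⟨by omega⟩
    exact one_ne_zero h0
  obtain ⟨b, hb, r, hr, hr'⟩ := extend_class hq (.B (i + 1))
    (by
      intro x hx
      apply adj_of_rel
      refine ⟨_, rfl, Or.inr (Or.inr (Or.inr ?_))⟩
      rw [hx, hcast])
    (by
      intro x hx hxB
      rw [hq'] at hx
      rcases hx with h | ⟨s, hs, h⟩ | ⟨s, hs, hs', h⟩
      · rw [hxB] at h; injection h with h; exact h1ne h
      · rw [hxB] at h; cases h
      · rw [hxB] at h; cases h)
  refine ⟨b, hb, r, hr, fun y => ?_⟩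
  rw [hr', hq']
  simp only [N0, mem_filter, mem_univ, true_and]
  constructor
  · rintro ((h | ⟨s, hs, h⟩ | ⟨s, hs, hs', h⟩) | h)
    · rw [h]
      rintro (h | h | ⟨j, hj, hj', h⟩)
      · cases h
      · cases h
      · injection h with h; exact hj h.symm
    · rw [h]
      rintro (h | h | ⟨j, hj, hj', h⟩) <;> cases h
    · rw [h]
      rintro (h | h | ⟨j, hj, hj', h⟩)
      · cases h
      · injection h with h
        have h0 : (s : ZMod m) = ((0 : ℕ) : ZMod m) := by
          have := congrArg (fun t => i - t) h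
          simpa using this
        have := natCast_inj_of_lt (by omega) (by omega) h0
        omega
      · cases h
    · rw [h]
      rintro (h | h | ⟨j, hj, hj', h⟩)
      · cases h
      · cases h
      · injection h with h; exact hj' h.symm
  · intro h
    push Not at h
    obtain ⟨hz, hA, hB⟩ := h
    rcases hy : y.1 with _ | j | j | j
    · exact absurd hy hz
    · left; right; left
      refine ⟨(i - j).val, ?_, ?_⟩
      · have := ZMod.val_lt (i - j); omega
      · rw [ZMod.natCast_zmod_val]; congr 1; ring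
    · left; right; right
      have hji : j ≠ i := fun h => hA (by rw [hy, h])
      refine ⟨(i - j).val, ?_, ?_, ?_⟩
      · rw [Nat.one_le_iff_ne_zero, Ne, ZMod.val_eq_zero, sub_eq_zero]
        exact fun h => hji h.symm
      · have := ZMod.val_lt (i - j); omega
      · rw [ZMod.natCast_zmod_val]; congr 1; ring
    · by_cases h1 : j = i
      · left; left; rw [h1]
      · by_cases h2 : j = i + 1
        · right; rw [h2]
        · exact absurd hy (hB j h1 h2)

end Pool.Agent.Helper34.ED
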