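import Mathlib
import Pool.Agent.Helper34.ED.Paths

set_option autoImplicit false

namespace Pool.Agent.Helper34.ED

open Finset

/-! ### The path variant: lower bound -/

/-- Weight of a set of classes. -/
def wt {m : ℕ} (N : Finset (Cls m)) : ℕ := ∑ c ∈ N, sz c

lemma wt_mono {m : ℕ} {N N' : Finset (Cls m)} (h : N ⊆ N') : wt N ≤ wt N' :=
  Finset.sum_le_sum_of_subset h

/-- All `B`-classes except those in a given set. -/
def Bs {m : ℕ} [NeZero m] (E : Finset (ZMod m)) : Finset (Cls m) :=
  (Finset.univ \ E).image Cls.B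

lemma B_injective {m : ℕ} : Function.Injective (Cls.B : ZMod m → Cls m) := by
  intro a b h; injection h

lemma wt_Bs {m : ℕ} [NeZero m] (E : Finset (ZMod m)) :
    wt (Bs E) = (m - E.card) * (2 * m + 2) := by
  unfold wt Bs
  rw [Finset.sum_image (fun a _ b _ h => B_injective h)]
  simp only [sz, Finset.sum_const, smul_eq_mul]
  congr 1
  rw [Finset.card_sdiff_of_subset (Finset.subset_univ _), Finset.card_univ, ZMod.card]

lemma mem_Bs {m : ℕ} [NeZero m] {E : Finset (ZMod m)} {c : Cls m} :
    c ∈ Bs E ↔ ∃ j, j ∉ E ∧ c = .B j := by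
  simp [Bs, eq_comm]

lemma wt_insert {m : ℕ} {N : Finset (Cls m)} {c : Cls m} (h : c ∉ N) :
    wt (insert c N) = sz c + wt N := by
  unfold wt
  rw [Finset.sum_insert h]

lemma one_ne {m : ℕ} (hm : 2 ≤ m) (i : ZMod m) : i + 1 ≠ i := by
  intro h
  have h0 : (1 : ZMod m) = 0 := by
    have := congrArg (fun t => t - i) h
    simpa using this
  have : Fact (1 < m) := ⟨by omega⟩
  exact one_ne_zero h0

lemma wt_N0 {m : ℕ} [NeZero m] (hm : 2 ≤ m) (i : ZMod m) :
    wt (N0 i) = 1 + 2 * (m - i.val) + (m - 2) * (2 * m + 2) := by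
  have h : N0 i = insert .z (insert (.A i) (Bs {i, i + 1})) := by
    ext c
    simp only [N0, mem_filter, mem_univ, true_and, mem_insert, mem_Bs, mem_singleton, not_or,
      and_assoc]
  rw [h, wt_insert, wt_insert, wt_Bs, Finset.card_pair (one_ne hm i).symm]
  · simp only [sz]; ring
  · simp [mem_Bs]
  · simp [mem_Bs]

lemma val_sub_one {m : ℕ} [NeZero m] (hm : 2 ≤ m) (i : ZMod m) (hi : 1 ≤ i.val) :
    (i - 1).val = i.val - 1 := by
  have : Fact (1 < m) := ⟨by omega⟩
  rw [ZMod.val_sub (by rw [ZMod.val_one]; exact hi), ZMod.val_one]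

/-- The forcing property of the long path lengths. -/
lemma forced {m : ℕ} [NeZero m] (hm : 3 ≤ m) {u v x : Vt m} {i : ZMod m} (hi : 1 ≤ i.val)
    (hu : u.1 = .B i) {q : (Gr m).Walk u v} (hq : q.IsPath)
    (hq' : ∀ y, y ∈ q.support ↔ y.1 ∉ N0 i)
    {p : (Gr m).Walk u x} (hp : p.IsPath) (hlen : p.length = q.length) :
    x.1 = .B (i + 1) := by
  have him := ZMod.val_lt i
  have key : ∀ N : Finset (Cls m), (∀ y ∈ p.support, y.1 ∉ N) →
      wt N ≤ 1 + 2 * (m - i.val) + (m - 2) * (2 * m + 2) := by
    intro N hN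
    have h1 := count_le hp N hN
    have h2 := count_eq hq (N0 i) hq'
    have h3 := wt_N0 (by omega) i
    unfold wt at h3 ⊢
    omega
  by_cases hvis : ∃ j, j ≠ i ∧ ∃ y ∈ p.support, y.1 = .B j
  · obtain ⟨j, hji, y, hy, hyB⟩ := hvis
    have hxj : x.1 = .B j := end_in_B hp (by rw [hu]; intro h; injection h with h; exact hji h.symm)
      hy hyB
    by_cases hj1 : j = i + 1
    · rw [hxj, hj1]
    exfalso
    have hother : ∀ y ∈ p.support, y.1 ∉ Bs {i, j} := by
      intro y' hy' hmem
      rw [mem_Bs] at hmem
      obtain ⟨k, hk, hk'⟩ := hmem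
      simp only [mem_insert, mem_singleton, not_or] at hk
      have := end_in_B hp (j := k)
        (by rw [hu]; intro h; injection h with h; exact hk.1 h.symm) hy' hk'
      rw [hxj] at this
      injection this with this
      exact hk.2 this.symm
    have hwB : wt (Bs ({i, j} : Finset (ZMod m))) = (m - 2) * (2 * m + 2) := by
      rw [wt_Bs, Finset.card_pair (Ne.symm hji)]
    have hA1 := miss_A (by omega) hp hu hxj hji
    have hA2 := miss_A (by omega) (hp.reverse) hxj hu (Ne.symm hji)
    simp only [SimpleGraph.Walk.support_reverse, List.mem_reverse] at hA2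
    have hAnot : ∀ a : ZMod m, (Cls.A a) ∉ Bs ({i, j} : Finset (ZMod m)) := by
      intro a; simp [mem_Bs]
    rcases hA1 with hA1 | hA1
    · -- `A i` is missed
      have hA2' : ∃ a, a ≠ i ∧ ∀ y ∈ p.support, y.1 ≠ .A a := by
        rcases hA2 with h | h
        · exact ⟨j, hji, h⟩
        · refine ⟨j - 1, ?_, h⟩
          intro h'
          apply hj1
          rw [← h']; ring
      obtain ⟨a, hai, hA2⟩ := hA2'
      have := key (insert (.A i) (insert (.A a) (Bs {i, j}))) (by
        intro y hy
        rw [mem_insert, mem_insert]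
        rintro (h | h | h)
        · exact hA1 y hy h
        · exact hA2 y hy h
        · exact hother y hy h)
      rw [wt_insert, wt_insert (hAnot a), hwB] at this
      · simp only [sz] at this
        have := ZMod.val_lt a
        omega
      · rw [mem_insert]
        rintro (h | h)
        · injection h with h; exact hai h.symm
        · exact hAnot i h
    · -- `A (i - 1)` is missed
      have := key (insert (.A (i - 1)) (Bs {i, j})) (by
        intro y hy
        rw [mem_insert]
        rintro (h | h)
        · exact hA1 y hy h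
        · exact hother y hy h)
      rw [wt_insert (hAnot _), hwB] at this
      simp only [sz] at this
      rw [val_sub_one (by omega) i hi] at this
      omega
  · exfalso
    push Not at hvis
    have := key (Bs {i}) (by
      intro y hy hmem
      rw [mem_Bs] at hmem
      obtain ⟨k, hk, hk'⟩ := hmem
      exact hvis k (by simpa using hk) y hy hk')
    rw [wt_Bs, Finset.card_singleton] at this
    have e : m - 1 = (m - 2) + 1 := by omega
    rw [e, add_mul, one_mul] at this
    omega

lemma fp_ge {m : ℕ} [NeZero m] (hm : 3 ≤ m) : m - 1 ≤ fp (Gr m) (vx (.B 1) : Vt m) := by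
  unfold fp
  apply le_value
  have h := forces_chain (mv := pathMove (Gr m)) (m - 2)
    (fun k x => k ≤ m - 2 ∧ x.1 = .B (((k + 1 : ℕ) : ZMod m)))
    (by
      rintro i j x ⟨hi, hi'⟩ ⟨hj, hj'⟩
      rw [hi'] at hj'
      injection hj' with hj'
      have := natCast_inj_of_lt (m := m) (a := i + 1) (b := j + 1) (by omega) (by omega) hj'
      omega)
    (by
      rintro i hi u ⟨_, hu⟩
      have hval : (((i + 1 : ℕ) : ZMod m)).val = i + 1 := ZMod.val_natCast_of_lt (by omega)
      obtain ⟨b, hb, q, hq, hq'⟩ := long_path (by omega) hu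
      have hlen : 1 ≤ q.length := by
        rw [Nat.one_le_iff_ne_zero]
        intro h0
        have hub : u = b := SimpleGraph.Walk.eq_of_length_eq_zero h0
        rw [hub, hb] at hu
        injection hu with hu
        exact one_ne (by omega) _ hu
      refine ⟨q.length, ⟨b, hlen, q, hq, rfl⟩, ?_⟩
      rintro x ⟨_, p, hp, hpl⟩
      refine ⟨by omega, ?_⟩
      rw [forced hm (by omega) hu hq hq' hp hpl]
      congr 1
      push_cast
      ring)
    (m - 2) 0 (by omega) {vx (.B 1)} (vx (.B 1)) ⟨by omega, by simp [vx]⟩ (by simp)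
    (by
      intro j hj
      have : j = 0 := by omega
      subst this
      exact ⟨vx (.B 1), by simp, by omega, by simp [vx]⟩)
  have e : m - 2 + 1 = m - 1 := by omega
  rw [e] at h
  exact h

end Pool.Agent.Helper34.ED
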