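import Mathlib
import Pool.Agent.Helper34.ED.Force

set_option autoImplicit false

namespace Pool.Agent.Helper34.ED

open Finset

/-! ### The distance game: upper bound -/

lemma dist_le_one {V : Type*} {G : SimpleGraph V} {x y : V} (h : G.Adj x y) : G.dist x y = 1 :=
  SimpleGraph.dist_eq_one_iff_adj.2 h

/-- Every vertex is within distance two of the hub. -/
lemma hub {m : ℕ} [NeZero m] (x : Vt m) :
    ∃ p : (Gr m).Walk (vx .z) x, p.length ≤ 2 := by
  have hzw : ∀ i : ZMod m, (Gr m).Adj (vx .z) (vx (.w i)) := fun i =>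
    (adj_of_rel ⟨i, rfl, Or.inl rfl⟩).symm
  rcases hx : x.1 with _ | i | i | i
  · rw [eq_vx_z x hx]
    exact ⟨SimpleGraph.Walk.nil, by simp⟩
  · rw [eq_vx_w x i hx]
    exact ⟨SimpleGraph.Walk.cons (hzw i) SimpleGraph.Walk.nil, by simp⟩
  · have h : (Gr m).Adj (vx (.w i)) x := adj_of_rel ⟨i, rfl, Or.inr (Or.inl hx)⟩
    exact ⟨SimpleGraph.Walk.cons (hzw i) (SimpleGraph.Walk.cons h SimpleGraph.Walk.nil), by simp⟩
  · have h : (Gr m).Adj (vx (.w i)) x := adj_of_rel ⟨i, rfl, Or.inr (Or.inr (Or.inr hx))⟩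
    exact ⟨SimpleGraph.Walk.cons (hzw i) (SimpleGraph.Walk.cons h SimpleGraph.Walk.nil), by simp⟩

lemma connected {m : ℕ} [NeZero m] : (Gr m).Connected := by
  have : Nonempty (Vt m) := ⟨vx .z⟩
  refine SimpleGraph.Connected.mk (fun x y => ?_)
  obtain ⟨p, _⟩ := hub x
  obtain ⟨q, _⟩ := hub y
  exact ⟨p.reverse.append q⟩

lemma dist_hub {m : ℕ} [NeZero m] (x : Vt m) : (Gr m).dist (vx .z) x ≤ 2 := by
  obtain ⟨p, hp⟩ := hub x
  exact (SimpleGraph.dist_le p).trans hp

/-- The height function used for the lower bounds on distances. -/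
def ht {m : ℕ} (x : Vt m) : ℤ :=
  match x.1 with
  | .z => 2
  | .w i => if i = 1 then 1 else 3
  | .A _ => 2
  | .B i => if i = 1 then 0 else 4

lemma ht_adj {m : ℕ} {x y : Vt m} (h : (Gr m).Adj x y) : ht y ≤ ht x + 1 ∧ ht x ≤ ht y + 1 := by
  obtain ⟨_, h⟩ := h
  have hrel : ∀ x y : Vt m, Rel x.1 y.1 → ht y ≤ ht x + 1 ∧ ht x ≤ ht y + 1 := by
    rintro x y ⟨i, h1, h2⟩
    unfold ht
    rw [h1]
    rcases h2 with h2 | h2 | h2 | h2 <;> rw [h2] <;> simp only <;> split_ifs <;> norm_num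
  rcases h with h | h | h
  · unfold ht; rw [h]; constructor <;> omega
  · exact hrel x y h
  · exact (hrel y x h).symm

lemma ht_walk {m : ℕ} {x y : Vt m} (p : (Gr m).Walk x y) : ht y ≤ ht x + p.length := by
  induction p with
  | nil => simp
  | cons h p ih =>
    have := (ht_adj h).1
    rw [SimpleGraph.Walk.length_cons]
    push_cast
    omega

lemma ht_dist {m : ℕ} [NeZero m] (x y : Vt m) : ht y ≤ ht x + (Gr m).dist x y := by
  obtain ⟨p, hp⟩ := connected.exists_walk_length_eq_dist x y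
  rw [← hp]
  exact ht_walk p

/-- The five vertices between which the Director moves. -/
def pt (m : ℕ) [NeZero m] : Fin 5 → Vt m
  | 0 => vx (.B 1)
  | 1 => vx (.w 1)
  | 2 => vx .z
  | 3 => vx (.w 2)
  | 4 => vx (.B 2)

lemma two_ne_one {m : ℕ} (hm : 2 ≤ m) : (2 : ZMod m) ≠ 1 := by
  have := one_ne hm (1 : ZMod m)
  rwa [one_add_one_eq_two] at this

lemma ht_pt {m : ℕ} [NeZero m] (hm : 2 ≤ m) (k : Fin 5) : ht (pt m k) = (k.val : ℤ) := by
  have h21 := two_ne_one hm
  fin_cases k <;> simp [pt, ht, vx, h21]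

lemma pt_adj {m : ℕ} [NeZero m] : ∀ k : Fin 4, (Gr m).Adj (pt m k.castSucc) (pt m k.succ) := by
  intro k
  fin_cases k
  · exact (adj_of_rel ⟨1, rfl, Or.inr (Or.inr (Or.inr rfl))⟩).symm
  · exact adj_of_rel ⟨1, rfl, Or.inl rfl⟩
  · exact (adj_of_rel ⟨2, rfl, Or.inl rfl⟩).symm
  · exact adj_of_rel ⟨2, rfl, Or.inr (Or.inr (Or.inr rfl))⟩

lemma pt_dist_le {m : ℕ} [NeZero m] : ∀ d : ℕ, ∀ a b : Fin 5, a.val + d = b.val →
    (Gr m).dist (pt m a) (pt m b) ≤ d := by
  intro d
  induction d with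
  | zero =>
    intro a b h
    have : a = b := Fin.ext (by omega)
    rw [this]; simp
  | succ d ih =>
    intro a b h
    have hb := b.2
    have h1 := ih a ⟨b.val - 1, by omega⟩ (by simp; omega)
    have h2 := pt_adj (m := m) ⟨b.val - 1, by omega⟩
    have e1 : (Fin.castSucc ⟨b.val - 1, by omega⟩ : Fin 5) = ⟨b.val - 1, by omega⟩ := rfl
    have e2 : (Fin.succ ⟨b.val - 1, by omega⟩ : Fin 5) = b := Fin.ext (by simp; omega)
    rw [e1, e2] at h2
    have h3 := dist_le_one h2
    have := connected.dist_triangle (u := pt m a) (v := pt m ⟨b.val - 1, by omega⟩) (w := pt m b)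
    omega

lemma pt_dist {m : ℕ} [NeZero m] (hm : 2 ≤ m) {a b : Fin 5} (h : a.val ≤ b.val) :
    (Gr m).dist (pt m a) (pt m b) = b.val - a.val := by
  apply le_antisymm
  · exact pt_dist_le _ a b (by omega)
  · have := ht_dist (pt m a) (pt m b)
    rw [ht_pt hm, ht_pt hm] at this
    omega

lemma ecc {m : ℕ} [NeZero m] (hm : 2 ≤ m) (a : Fin 5) (x : Vt m) :
    ((Gr m).dist (pt m a) x : ℤ) ≤ 2 + |(a.val : ℤ) - 2| := by
  have h1 := connected.dist_triangle (u := pt m a) (v := pt m 2) (w := x)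
  have h2 : (Gr m).dist (pt m 2) x ≤ 2 := dist_hub x
  rcases le_total a.val 2 with h | h
  · have := pt_dist hm (a := a) (b := 2) h
    rw [abs_of_nonpos (by omega)]
    have h3 : ((2 : Fin 5).val) = 2 := rfl
    omega
  · have := pt_dist hm (a := 2) (b := a) h
    rw [SimpleGraph.dist_comm] at this
    rw [abs_of_nonneg (by omega)]
    have h3 : ((2 : Fin 5).val) = 2 := rfl
    omega

lemma fd_le {m : ℕ} [NeZero m] (hm : 2 ≤ m) : fd (Gr m) (vx (.B 1) : Vt m) ≤ 5 := by
  unfold fd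
  have h := value_le_of_closed (mv := distMove (Gr m)) (v := vx (.B 1)) (univ.image (pt m))
    (by
      intro a ha l hex
      obtain ⟨x, hl, hx⟩ := hex
      rw [mem_image] at ha
      obtain ⟨k, _, rfl⟩ := ha
      have hecc := ecc hm k x
      rw [hx] at hecc
      have hk := k.2
      by_cases hk2 : k.val + l ≤ 4
      · refine ⟨pt m ⟨k.val + l, by omega⟩, mem_image_of_mem _ (mem_univ _), hl, ?_⟩
        rw [pt_dist hm (by simp)]
        simp
      · have hkl : l ≤ k.val := by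
          rcases le_total k.val 2 with h | h
          · rw [abs_of_nonpos (by omega)] at hecc
            omega
          · rw [abs_of_nonneg (by omega)] at hecc
            omega
        refine ⟨pt m ⟨k.val - l, by omega⟩, mem_image_of_mem _ (mem_univ _), hl, ?_⟩
        rw [SimpleGraph.dist_comm, pt_dist hm (by simp)]
        simp; omega)
    (mem_image.2 ⟨0, mem_univ _, rfl⟩)
  refine h.trans (Finset.card_image_le.trans ?_)
  simp

end Pool.Agent.Helper34.ED
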